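import Pool.Agent.Helper3.FewP.Goals

/-!
# FewPoints (MP_d3128a_ag), packet STRIP-MIN: a matrix with independent columns has a nonsingular
maximal minor
-/

set_option autoImplicit false

namespace Pool.Agent.Helper31.FewP.MIN

open Pool.Agent.Helper3.FewP

theorem t : G_MIN := by
  intro F ρ ι _ _ _ _ v hv
  classical
  -- the rows
  set w : ρ → (ι → F) := fun r i => v i r with hw
  have hrank : (Matrix.of v : Matrix ι ρ F).rank = Fintype.card ι :=
    LinearIndependent.rank_matrix (M := Matrix.of v) hv
  rw [Matrix.rank_eq_finrank_span_cols] at hrank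
  have hspan : Submodule.span F (Set.range w) = ⊤ := by
    apply Submodule.eq_top_of_finrank_eq
    rw [Module.finrank_fintype_fun_eq_card]
    exact hrank
  obtain ⟨κ, a, ha, hsp, hli⟩ := exists_linearIndependent' F w
  rw [hspan] at hsp
  let b : Module.Basis κ F (ι → F) := Module.Basis.mk hli hsp.ge
  let e : ι ≃ κ := (Pi.basisFun F ι).indexEquiv b
  refine ⟨fun i => a (e i), fun i j h => e.injective (ha h), ?_⟩
  have h1 : LinearIndependent F (Matrix.of fun (i c : ι) => v c (a (e i))).row := by
    have h2 := hli.comp e e.injective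
    exact h2
  rw [Matrix.linearIndependent_rows_iff_isUnit, Matrix.isUnit_iff_isUnit_det] at h1
  exact h1.ne_zero

end Pool.Agent.Helper31.FewP.MIN
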