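import Pool.Agent.Helper3.FewP.Goals3

/-!
# FewPoints, packet STRIP-CRD
-/

set_option autoImplicit false

namespace Pool.Agent.Helper31.FewP.CRD

open Pool.Agent.Helper3.FewP

theorem crd (m : ℕ) : 2 * Fintype.card (Mon m) = m * (m + 1) := by
  classical
  have h1 : Fintype.card (Mon m) = ∑ a : Fin m, (m - (a : ℕ)) := by
    rw [Fintype.card_subtype, ← Finset.univ_product_univ, Finset.card_filter, Finset.sum_product]
    refine Finset.sum_congr rfl fun a _ => ?_
    rw [Fin.sum_univ_eq_sum_range (fun b => if (a : ℕ) + b < m then 1 else 0) m,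
      ← Finset.card_filter]
    have h3 : ((Finset.range m).filter fun b => (a : ℕ) + b < m) = Finset.range (m - a) := by
      ext b
      simp only [Finset.mem_filter, Finset.mem_range]
      omega
    rw [h3, Finset.card_range]
  rw [h1, Fin.sum_univ_eq_sum_range (fun a => m - a) m]
  clear h1
  induction m with
  | zero => rfl
  | succ m ih =>
    rw [Finset.sum_range_succ']
    have h4 : ∀ i ∈ Finset.range m, m + 1 - (i + 1) = m - i := fun i _ => by omega
    rw [Finset.sum_congr rfl h4]
    rw [mul_add, ih]
    rw [Nat.sub_zero]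
    ring

theorem t : G_CRD := crd

end Pool.Agent.Helper31.FewP.CRD
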