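import Pool.Agent.Helper3.FewP.Goals2

/-!
# FewPoints, packet STRIP-EVM
-/

set_option autoImplicit false

namespace Pool.Agent.Helper31.FewP.EVM

open Pool.Agent.Helper3.FewP

theorem t : G_EVM := by
  intro σ _ t x k r j w g
  ext e
  rw [PowerSeries.coeff_map, gent, sent, PowerSeries.coeff_mk, PowerSeries.coeff_mk, map_sum]
  refine Finset.sum_congr rfl fun s _ => ?_
  split_ifs with h
  · show AddMonoidAlgebra.lift ℚ ℂ (ℤ × (σ → ℤ)) (mh t x) _ = _
    rw [AddMonoidAlgebra.lift_single, Rat.smul_def, mul_comm]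
    rfl
  · exact map_zero _

end Pool.Agent.Helper31.FewP.EVM
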